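import Pool.Agent.Q44.PG.Stm

set_option autoImplicit false

/-! Project PG (helper44): the statement P_comp (helper121). -/

namespace Pool.Agent.Q121.PG.CO

open MvPolynomial Pool.Agent.Q44.SA Pool.Agent.Q44.PG

variable {K : Type} [Field K] {n : ℕ}

/-- the ideals of the sets of points of `V(I)` -/
def VV (I : Ideal (MvPolynomial (Fin n) K)) : Set (Ideal (MvPolynomial (Fin n) K)) :=
  {J | ∃ Y : Set (Fin n → K), (∀ y ∈ Y, Pt (RingHom.id K) I y) ∧ J = Van Y}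

theorem Im_mono {I : Ideal (MvPolynomial (Fin n) K)} (φ : Mor I)
    {J J' : Ideal (MvPolynomial (Fin n) K)} (h : J ≤ J') : Im φ J ≤ Im φ J' :=
  iInf_mono fun _ => Ideal.comap_mono h

theorem Im_inf {I : Ideal (MvPolynomial (Fin n) K)} (φ : Mor I)
    (s : Finset (Ideal (MvPolynomial (Fin n) K))) : s.inf (Im φ) ≤ Im φ (s.inf id) := by
  intro f hf
  rw [Im, Ideal.mem_iInf]
  intro l
  rw [Ideal.mem_comap, Submodule.mem_finsetInf]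
  intro J hJ
  have h1 := (Submodule.mem_finsetInf.1 hf) J hJ
  rw [Im, Ideal.mem_iInf] at h1
  exact h1 l

theorem fin_min (J : Ideal (MvPolynomial (Fin n) K)) : J.minimalPrimes.Finite :=
  Ideal.finite_minimalPrimes_of_isNoetherianRing _ J

theorem rad_inf {J : Ideal (MvPolynomial (Fin n) K)} (h : J.radical = J) :
    (fin_min J).toFinset.inf id = J := by
  rw [Finset.inf_id_eq_sInf, Set.Finite.coe_toFinset, Ideal.sInf_minimalPrimes, h]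

/-- (1) the minimal primes of an ideal of `VV` are in `VV` -/
theorem min_mem (h1 : P_van) [CharZero K] {I : Ideal (MvPolynomial (Fin n) K)} (hI : Homog I)
    {J : Ideal (MvPolynomial (Fin n) K)} (hJ : J ∈ VV I) {𝔮 : Ideal (MvPolynomial (Fin n) K)}
    (hq : 𝔮 ∈ J.minimalPrimes) : 𝔮 ∈ VV I := by
  obtain ⟨Y, hY, rfl⟩ := hJ
  obtain ⟨-, -, -, -, hv⟩ := h1 K n I hI Y hY
  set Z : Ideal (MvPolynomial (Fin n) K) → Set (Fin n → K) := fun 𝔯 => {y ∈ Y | 𝔯 ≤ Van {y}} with hZ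
  have hle : (fin_min (Van Y)).toFinset.inf (fun 𝔯 => Van (Z 𝔯)) ≤ Van Y := by
    intro f hf y hy t
    obtain ⟨hy1, hy2⟩ := hv y hy
    have := hy2
    obtain ⟨𝔯, hr, hry⟩ := Ideal.exists_minimalPrimes_le hy1
    have h2 := (Submodule.mem_finsetInf.1 hf) 𝔯 ((fin_min (Van Y)).mem_toFinset.2 hr)
    exact h2 y ⟨hy, hry⟩ t
  have hqp : 𝔮.IsPrime := hq.1.1
  obtain ⟨𝔯, hr, hr2⟩ := (hqp.inf_le').1 (hle.trans hq.1.2)
  have hr' : 𝔯 ∈ (Van Y).minimalPrimes := (fin_min (Van Y)).mem_toFinset.1 hr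
  have hr3 : 𝔯 ≤ Van (Z 𝔯) := by
    intro f hf y hy t
    exact hy.2 hf y rfl t
  have hr4 : 𝔮 ≤ 𝔯 := hq.2 hr'.1 (hr3.trans hr2)
  refine ⟨Z 𝔯, fun y hy => hY y hy.1, ?_⟩
  exact le_antisymm (hr4.trans hr3) hr2

theorem im_mem (h2 : P_im) [CharZero K] {I : Ideal (MvPolynomial (Fin n) K)} (hI : Homog I)
    (φ : Mor I) {J : Ideal (MvPolynomial (Fin n) K)} (hJ : J ∈ VV I) : Im φ J ∈ VV I := by
  obtain ⟨Y, hY, rfl⟩ := hJ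
  refine ⟨_, ?_, h2 K n I hI φ Y hY⟩
  rintro y' ⟨y, hy, h⟩
  exact Pool.Agent.Q190.SA.rel_pt hI φ _ (hY y hy) h

theorem im_inv (h3 : P_im2) [CharZero K] {I : Ideal (MvPolynomial (Fin n) K)} (hI : Homog I)
    (φ ψ : Mor I) (hinv : LeftInv ψ φ) {J : Ideal (MvPolynomial (Fin n) K)} (hJ : J ∈ VV I) :
    Im ψ (Im φ J) = J := by
  obtain ⟨Y, hY, rfl⟩ := hJ
  exact h3 K n I hI φ ψ hinv Y hY

theorem rad_of (h1 : P_van) [CharZero K] {I : Ideal (MvPolynomial (Fin n) K)} (hI : Homog I)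
    {J : Ideal (MvPolynomial (Fin n) K)} (hJ : J ∈ VV I) : J.radical = J := by
  obtain ⟨Y, hY, rfl⟩ := hJ
  exact (h1 K n I hI Y hY).2.1

/-- (2) images of prime ideals of `VV` are prime -/
theorem im_prime (h1 : P_van) (h2 : P_im) (h3 : P_im2) [CharZero K]
    {I : Ideal (MvPolynomial (Fin n) K)} (hI : Homog I) (φ ψ : Mor I) (hinv : LeftInv ψ φ)
    (hinv' : LeftInv φ ψ) {𝔮 : Ideal (MvPolynomial (Fin n) K)} (hq : 𝔮 ∈ VV I) (hp : 𝔮.IsPrime) :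
    (Im φ 𝔮).IsPrime := by
  have hA := im_mem h2 hI φ hq
  have hrad := rad_inf (rad_of h1 hI hA)
  have h4 : (fin_min (Im φ 𝔮)).toFinset.inf (Im ψ) ≤ 𝔮 := by
    calc (fin_min (Im φ 𝔮)).toFinset.inf (Im ψ)
        ≤ Im ψ ((fin_min (Im φ 𝔮)).toFinset.inf id) := Im_inf ψ _
      _ = 𝔮 := by rw [hrad, im_inv h3 hI φ ψ hinv hq]
  obtain ⟨𝔯, hr, hr2⟩ := (hp.inf_le').1 h4
  have hr' : 𝔯 ∈ (Im φ 𝔮).minimalPrimes := (fin_min _).mem_toFinset.1 hr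
  have hr3 : 𝔮 ≤ Im ψ 𝔯 := by
    conv_lhs => rw [← im_inv h3 hI φ ψ hinv hq]
    exact Im_mono ψ hr'.1.2
  have hr4 : Im ψ 𝔯 = 𝔮 := le_antisymm hr2 hr3
  have hr5 : 𝔯 = Im φ 𝔮 := by
    rw [← hr4, im_inv h3 hI ψ φ hinv' (min_mem h1 hI hA hr')]
  rw [← hr5]
  exact hr'.1.1

/-- (3) minimal primes go to minimal primes -/
theorem im_min (h1 : P_van) (h2 : P_im) (h3 : P_im2) [CharZero K]
    {I : Ideal (MvPolynomial (Fin n) K)} (hI : Homog I) (φ ψ : Mor I) (hinv : LeftInv ψ φ)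
    (hinv' : LeftInv φ ψ) {J 𝔮 : Ideal (MvPolynomial (Fin n) K)} (hJ : J ∈ VV I)
    (hq : 𝔮 ∈ J.minimalPrimes) : Im φ 𝔮 ∈ (Im φ J).minimalPrimes := by
  have hqV := min_mem h1 hI hJ hq
  refine ⟨⟨im_prime h1 h2 h3 hI φ ψ hinv hinv' hqV hq.1.1, Im_mono φ hq.1.2⟩, ?_⟩
  rintro 𝔯 ⟨hrp, hrJ⟩ hr
  have := hrp
  obtain ⟨𝔰, hs, hsr⟩ := Ideal.exists_minimalPrimes_le hrJ
  have hsV := min_mem h1 hI (im_mem h2 hI φ hJ) hs
  have h4 : J ≤ Im ψ 𝔰 := by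
    conv_lhs => rw [← im_inv h3 hI φ ψ hinv hJ]
    exact Im_mono ψ hs.1.2
  have h5 : Im ψ 𝔰 ≤ 𝔮 := by
    conv_rhs => rw [← im_inv h3 hI φ ψ hinv hqV]
    exact Im_mono ψ (hsr.trans hr)
  have h6 : (Im ψ 𝔰).IsPrime := im_prime h1 h2 h3 hI ψ φ hinv' hinv hsV hs.1.1
  have h7 : 𝔮 ≤ Im ψ 𝔰 := hq.2 ⟨h6, h4⟩ h5
  have h8 : Im φ 𝔮 ≤ 𝔰 := by
    conv_rhs => rw [← im_inv h3 hI ψ φ hinv' hsV]
    exact Im_mono φ h7
  exact h8.trans hsr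

/-- the statement P_comp -/
theorem main (h1 : P_van) (h2 : P_im) (h3 : P_im2) : P_comp := by
  intro K _ _ n I hI S φ ψ hψφ hφψ 𝒥 hfin hV hst J hJ 𝔭 hp
  have hV' : ∀ J ∈ 𝒥, J ∈ VV I := fun J hJ => hV J hJ
  have hpV : 𝔭 ∈ VV I := min_mem h1 hI (hV' J hJ) hp
  obtain ⟨Y, hY, hYe⟩ := hpV
  obtain ⟨hv1, -, hv2, hv3, -⟩ := h1 K n I hI Y hY
  rw [← hYe] at hv1 hv2 hv3
  refine ⟨hp.1.1, hv2, hv1, hv3.symm, ⋃ J ∈ 𝒥, J.minimalPrimes, ?_, ?_, ?_⟩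
  · exact hfin.biUnion fun J _ => fin_min J
  · exact Set.mem_biUnion hJ hp
  · intro s 𝔮 hq
    obtain ⟨J', hJ', hq'⟩ := Set.mem_iUnion₂.1 hq
    exact ⟨Set.mem_biUnion (hst s J' hJ').1
        (im_min h1 h2 h3 hI (φ s) (ψ s) (hψφ s) (hφψ s) (hV' J' hJ') hq'),
      Set.mem_biUnion (hst s J' hJ').2
        (im_min h1 h2 h3 hI (ψ s) (φ s) (hφψ s) (hψφ s) (hV' J' hJ') hq')⟩

end Pool.Agent.Q121.PG.CO
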